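import Mathlib

set_option autoImplicit false

namespace Pool.Agent.W845.GL

open Filter MeasureTheory Finset
open scoped Classical Topology

noncomputable section

/-! ## Densities in finite kernels -/

/-- Edges of `F` as ordered pairs `i < j`. -/
def Eg {k : ℕ} (F : SimpleGraph (Fin k)) : Finset (Fin k × Fin k) :=
  Finset.univ.filter (fun e => e.1 < e.2 ∧ F.Adj e.1 e.2)

/-- Homomorphism density of `F` in the kernel `W` on the finite uniform probability space `X`. -/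
def tW {X : Type} [Fintype X] (W : X → X → ℝ) {k : ℕ} (F : SimpleGraph (Fin k)) : ℝ :=
  (∑ x : Fin k → X, ∏ e ∈ Eg F, W (x e.1) (x e.2)) / (Fintype.card X : ℝ) ^ k

/-- Number of injective homomorphisms. -/
def nemb {k n : ℕ} (F : SimpleGraph (Fin k)) (G : SimpleGraph (Fin n)) : ℕ :=
  Nat.card {f : F →g G // Function.Injective f}

/-! ## The kernels -/

def sg (r : Bool) : ℝ := if r then 1 else -1

def aa (j : ℕ) : ℝ := 1 / Real.sqrt ((j : ℝ) + 1)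

def bb (j : ℕ) : ℝ := (1 / 16 : ℝ) ^ (j + 1)

def ff (j : ℕ) (r s : Bool) : ℝ :=
  (1 + bb j * sg r) * (1 + bb j * sg s) * (1 + aa j * sg r * sg s)

/-- The kernel on `{±1}^i`. -/
def KK (i : ℕ) (x y : Fin i → Bool) : ℝ := ∏ j : Fin i, ff j (x j) (y j)

/-- Its degree function. -/
def DD (i : ℕ) (x : Fin i → Bool) : ℝ :=
  ∏ j : Fin i, (1 + bb j * sg (x j)) * (1 + aa j * bb j * sg (x j))

/-- The limit of the densities. -/
def cc {k : ℕ} (F : SimpleGraph (Fin k)) : ℝ := limUnder atTop (fun i => tW (KK i) F)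

/-- T0: elementary bounds. -/
def S_T0 : Prop :=
  (∀ j, 0 < aa j ∧ aa j ≤ 1) ∧ (∀ j, 0 < bb j ∧ bb j ≤ 1 / 16) ∧
  (∀ j r s, 0 ≤ ff j r s ∧ ff j r s ≤ 4) ∧ (∀ j r s, ff j r s = ff j s r) ∧
  (∀ i x y, 0 ≤ KK i x y ∧ KK i x y ≤ 4 ^ i) ∧ (∀ i x y, KK i x y = KK i y x) ∧
  (∀ (i : ℕ) (k : ℕ) (F : SimpleGraph (Fin k)), 0 ≤ tW (KK i) F) ∧
  Summable bb ∧ Summable (fun j => aa j ^ 3) ∧ (∀ N : ℕ, ∑ j ∈ range N, bb j ≤ 1 / 15)

/-- T1: tensor product formula. -/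
def S_T1 : Prop :=
  ∀ (i k : ℕ) (F : SimpleGraph (Fin k)), tW (KK i) F = ∏ j : Fin i, tW (ff j) F

/-- T2: one factor is close to one; simple graphs have no even subgraph with one or two edges. -/
def S_T2 : Prop :=
  ∀ (k : ℕ) (F : SimpleGraph (Fin k)), ∃ C : ℝ, ∀ j : ℕ, |tW (ff j) F - 1| ≤ C * (bb j + aa j ^ 3)

/-- T3: the densities converge. -/
def S_T3 : Prop :=
  ∀ (k : ℕ) (F : SimpleGraph (Fin k)), 0 ≤ cc F ∧ Tendsto (fun i => tW (KK i) F) atTop (𝓝 (cc F))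

/-! ## Random graphs -/

/-- The graph of a set of ordered pairs. -/
def GE {n : ℕ} (e : Fin n × Fin n → Bool) : SimpleGraph (Fin n) where
  Adj u v := (u < v ∧ e (u, v) = true) ∨ (v < u ∧ e (v, u) = true)
  symm := ⟨by
    intro u v h
    rcases h with h | h
    · exact Or.inr h
    · exact Or.inl h⟩
  loopless := ⟨by
    intro u h
    rcases h with h | h
    · exact lt_irrefl _ h.1
    · exact lt_irrefl _ h.1⟩

def wt {X : Type} (W : X → X → ℝ) {n : ℕ} (x : Fin n → X) (e : Fin n × Fin n → Bool) : ℝ :=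
  ∏ q : Fin n × Fin n, if e q = true then W (x q.1) (x q.2) else 1 - W (x q.1) (x q.2)

/-- Expectation. -/
def EX {X : Type} [Fintype X] (W : X → X → ℝ) {n : ℕ} (Φ : (Fin n × Fin n → Bool) → ℝ) : ℝ :=
  (∑ x : Fin n → X, ∑ e : Fin n × Fin n → Bool, wt W x e * Φ e) / (Fintype.card X : ℝ) ^ n

/-- The indicator that `φ` is a homomorphism `F → GE e`. -/
def ind {k n : ℕ} (F : SimpleGraph (Fin k)) (φ : Fin k → Fin n) (e : Fin n × Fin n → Bool) : ℝ :=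
  ∏ a ∈ Eg F, if (GE e).Adj (φ a.1) (φ a.2) then 1 else 0

/-- R0: independence of the edges. -/
def S_R0 : Prop :=
  ∀ (X : Type) (W : X → X → ℝ) (n : ℕ) (x : Fin n → X) (A : Finset (Fin n × Fin n)),
    ∑ e : Fin n × Fin n → Bool, wt W x e * ∏ q ∈ A, (if e q = true then (1 : ℝ) else 0)
      = ∏ q ∈ A, W (x q.1) (x q.2)

/-- R1: first moments. -/
def S_R1 : Prop :=
  ∀ (X : Type) [Fintype X] [Nonempty X] (W : X → X → ℝ), (∀ x y, W x y = W y x) →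
    ∀ (n k : ℕ) (F : SimpleGraph (Fin k)) (φ : Fin k → Fin n), Function.Injective φ →
      EX W (ind F φ) = tW W F

/-- R2: second moments for disjoint images. -/
def S_R2 : Prop :=
  ∀ (X : Type) [Fintype X] [Nonempty X] (W : X → X → ℝ), (∀ x y, W x y = W y x) →
    ∀ (n k : ℕ) (F : SimpleGraph (Fin k)) (φ ψ : Fin k → Fin n), Function.Injective φ →
      Function.Injective ψ → (∀ u v, φ u ≠ ψ v) →
      EX W (fun e : Fin n × Fin n → Bool => ind F φ e * ind F ψ e) = tW W F ^ 2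

/-- R3: counting pairs of embeddings with intersecting images, and number of embeddings. -/
def S_R3 : Prop :=
  (∀ (n k : ℕ), ((Finset.univ : Finset (Fin k ↪ Fin n)).card : ℝ) = (n.descFactorial k : ℝ)) ∧
  (∀ (n k : ℕ), (n : ℝ) * (((Finset.univ : Finset ((Fin k ↪ Fin n) × (Fin k ↪ Fin n))).filter
      (fun z => ∃ u v, z.1 u = z.2 v)).card : ℝ) ≤ (k : ℝ) ^ 2 * (n.descFactorial k : ℝ) ^ 2) ∧
  (∀ (n k : ℕ) (F : SimpleGraph (Fin k)) (e : Fin n × Fin n → Bool),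
    (nemb F (GE e) : ℝ) = ∑ φ : Fin k ↪ Fin n, ind F φ e)

/-- R4: second moment bound. -/
def S_R4 : Prop :=
  ∀ (X : Type) [Fintype X] [Nonempty X] (W : X → X → ℝ), (∀ x y, W x y = W y x) →
    (∀ x y, 0 ≤ W x y ∧ W x y ≤ 1) →
    ∀ (n k : ℕ) (F : SimpleGraph (Fin k)), 1 ≤ n → k ≤ n →
      EX W (fun e : Fin n × Fin n → Bool =>
          ((nemb F (GE e) : ℝ) / (n.descFactorial k : ℝ) - tW W F) ^ 2)
        ≤ (k : ℝ) ^ 2 / (n : ℝ)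

/-- R5: a graph with all densities close to those of `W`. -/
def S_R5 : Prop :=
  ∀ (X : Type) [Fintype X] [Nonempty X] (W : X → X → ℝ), (∀ x y, W x y = W y x) →
    (∀ x y, 0 ≤ W x y ∧ W x y ≤ 1) →
    ∀ (n : ℕ) (s : Finset (Σ k : ℕ, SimpleGraph (Fin k))) (δ : (Σ k : ℕ, SimpleGraph (Fin k)) → ℝ),
      1 ≤ n → (∀ i ∈ s, 0 < δ i ∧ i.1 ≤ n) →
      ∑ i ∈ s, (i.1 : ℝ) ^ 2 / ((n : ℝ) * δ i ^ 2) < 1 →
      ∃ G : SimpleGraph (Fin n), ∀ i ∈ s,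
        |(nemb i.2 G : ℝ) / (n.descFactorial i.1 : ℝ) - tW W i.2| ≤ δ i

/-- Almost dense sequences of probabilities tending to zero. -/
def AD (p : ℕ → ℝ) : Prop :=
  (∀ n, 0 < p n ∧ p n ≤ 1) ∧
  (∀ ε : ℝ, 0 < ε → ∀ᶠ n : ℕ in atTop, (n : ℝ) ^ (-ε) ≤ p n) ∧ Tendsto p atTop (𝓝 0)

/-- DG: the graph sequence. -/
def S_DG : Prop :=
  ∀ p : ℕ → ℝ, AD p → ∃ G : ∀ n : ℕ, SimpleGraph (Fin n),
    ∀ (k : ℕ) (F : SimpleGraph (Fin k)),
      Tendsto (fun n => (nemb F (G n) : ℝ) / (p n ^ (Eg F).card * (n.descFactorial k : ℝ)))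
        atTop (𝓝 (cc F))

/-! ## Stars and double stars -/

def Star (m : ℕ) : SimpleGraph (Fin (m + 1)) :=
  SimpleGraph.fromRel (fun u v => u.val = 0 ∧ 1 ≤ v.val)

def DStar (l m : ℕ) : SimpleGraph (Fin (l + m + 2)) :=
  SimpleGraph.fromRel (fun u v => (u.val = 0 ∧ v.val = 1) ∨ (u.val = 0 ∧ 2 ≤ v.val ∧ v.val < l + 2)
    ∨ (u.val = 1 ∧ l + 2 ≤ v.val))

/-- ST: densities of stars and double stars in finite kernels. -/
def S_ST : Prop :=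
  ∀ (X : Type) [Fintype X] [Nonempty X] (W : X → X → ℝ),
    (∀ m : ℕ, tW W (Star m)
      = (∑ x : X, ((∑ y : X, W x y) / (Fintype.card X : ℝ)) ^ m) / (Fintype.card X : ℝ)) ∧
    (∀ l m : ℕ, tW W (DStar l m)
      = (∑ x : X, ∑ y : X, W x y * ((∑ z : X, W x z) / (Fintype.card X : ℝ)) ^ l
          * ((∑ z : X, W y z) / (Fintype.card X : ℝ)) ^ m) / (Fintype.card X : ℝ) ^ 2)

/-- SD: row sums of `KK`. -/
def S_SD : Prop :=
  ∀ (i : ℕ) (x : Fin i → Bool), (∑ y : Fin i → Bool, KK i x y) / (2 : ℝ) ^ i = DD i x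

/-! ## Kernels on the unit interval -/

def mu : Measure ℝ := volume.restrict (Set.Icc (0 : ℝ) 1)

/-- `κ` has the densities `cc`. -/
def HasMom (κ : ℝ → ℝ → ℝ) : Prop :=
  ∀ (k : ℕ) (F : SimpleGraph (Fin k)),
    (∫⁻ x in Set.univ.pi (fun _ : Fin k => Set.Icc (0 : ℝ) 1),
      ∏ e ∈ Eg F, ENNReal.ofReal (κ (x e.1) (x e.2))) = ENNReal.ofReal (cc F)

/-- K1: Tonelli for stars. -/
def S_K1 : Prop :=
  ∀ κ : ℝ → ℝ → ℝ, Measurable (Function.uncurry κ) → ∀ m : ℕ,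
    (∫⁻ x in Set.univ.pi (fun _ : Fin (m + 1) => Set.Icc (0 : ℝ) 1),
      ∏ e ∈ Eg (Star m), ENNReal.ofReal (κ (x e.1) (x e.2)))
      = ∫⁻ x, (∫⁻ y, ENNReal.ofReal (κ x y) ∂mu) ^ m ∂mu

/-- K2: Tonelli for double stars. -/
def S_K2 : Prop :=
  ∀ κ : ℝ → ℝ → ℝ, Measurable (Function.uncurry κ) → ∀ l m : ℕ,
    (∫⁻ x in Set.univ.pi (fun _ : Fin (l + m + 2) => Set.Icc (0 : ℝ) 1),
      ∏ e ∈ Eg (DStar l m), ENNReal.ofReal (κ (x e.1) (x e.2)))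
      = ∫⁻ x, ∫⁻ y, ENNReal.ofReal (κ x y) * (∫⁻ z, ENNReal.ofReal (κ x z) ∂mu) ^ l
          * (∫⁻ z, ENNReal.ofReal (κ y z) ∂mu) ^ m ∂mu ∂mu

/-- The degree function of `κ`. -/
def dg (κ : ℝ → ℝ → ℝ) (x : ℝ) : ℝ := ∫ y, κ x y ∂mu

/-- Real moments of the degrees of `κ`. -/
def RM (κ : ℝ → ℝ → ℝ) : Prop :=
  Measurable (dg κ) ∧
  Integrable (fun z : ℝ × ℝ => κ z.1 z.2) (mu.prod mu) ∧
  (∀ m : ℕ, Integrable (fun x => dg κ x ^ m) mu ∧ ∫ x, dg κ x ^ m ∂mu = cc (Star m)) ∧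
  (∀ l m : ℕ, Integrable (fun z : ℝ × ℝ => κ z.1 z.2 * dg κ z.1 ^ l * dg κ z.2 ^ m) (mu.prod mu) ∧
    ∫ z : ℝ × ℝ, κ z.1 z.2 * dg κ z.1 ^ l * dg κ z.2 ^ m ∂(mu.prod mu) = cc (DStar l m))

/-- KI: from the densities to real moments. -/
def S_KI : Prop :=
  ∀ κ : ℝ → ℝ → ℝ, Measurable (Function.uncurry κ) → (∀ x y, 0 ≤ κ x y) → HasMom κ → RM κ

/-- Uniform expectation of a function of the two degrees. -/
def EU (φ : ℝ → ℝ → ℝ) (i : ℕ) : ℝ :=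
  (∑ x : Fin i → Bool, ∑ y : Fin i → Bool, φ (DD i x) (DD i y)) / (4 : ℝ) ^ i

/-- Expectation weighted by the kernel. -/
def EK (φ : ℝ → ℝ → ℝ) (i : ℕ) : ℝ :=
  (∑ x : Fin i → Bool, ∑ y : Fin i → Bool, KK i x y * φ (DD i x) (DD i y)) / (4 : ℝ) ^ i

/-- KP: polynomials in the two degrees. -/
def S_KP : Prop :=
  ∀ κ : ℝ → ℝ → ℝ, RM κ → ∀ q : MvPolynomial (Fin 2) ℝ,
    Integrable (fun z : ℝ × ℝ => MvPolynomial.eval ![dg κ z.1, dg κ z.2] q) (mu.prod mu) ∧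
    Integrable (fun z : ℝ × ℝ => κ z.1 z.2 * MvPolynomial.eval ![dg κ z.1, dg κ z.2] q)
      (mu.prod mu) ∧
    Tendsto (EU (fun s t => MvPolynomial.eval ![s, t] q)) atTop
      (𝓝 (∫ z : ℝ × ℝ, MvPolynomial.eval ![dg κ z.1, dg κ z.2] q ∂(mu.prod mu))) ∧
    Tendsto (EK (fun s t => MvPolynomial.eval ![s, t] q)) atTop
      (𝓝 (∫ z : ℝ × ℝ, κ z.1 z.2 * MvPolynomial.eval ![dg κ z.1, dg κ z.2] q ∂(mu.prod mu)))

/-! ## Recovering the bits from the degree -/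

/-- DB: the degrees lie in `[1/2, 2]`. -/
def S_DB : Prop := ∀ (i : ℕ) (x : Fin i → Bool), 1 / 2 ≤ DD i x ∧ DD i x ≤ 2

/-- SEP: points with different `J`-th bit have separated degrees. -/
def S_SEP : Prop :=
  ∀ J : ℕ, ∃ γ : ℝ, 0 < γ ∧ ∀ (i : ℕ) (hi : J < i) (x : Fin i → Bool) (i' : ℕ) (hi' : J < i')
    (x' : Fin i' → Bool), x ⟨J, hi⟩ = true → x' ⟨J, hi'⟩ = false → γ ≤ |DD i x - DD i' x'|

/-- BP: polynomials reading the `J`-th bit. -/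
def S_BP : Prop :=
  ∀ (J : ℕ) (ε : ℝ), 0 < ε → ∃ P : Polynomial ℝ, ∀ (i : ℕ) (hi : J < i) (x : Fin i → Bool),
    |P.eval (DD i x) - sg (x ⟨J, hi⟩)| ≤ ε

/-! ## Moments of the correlation of two random points -/

def VV (N : ℕ) : ℝ := ∑ j ∈ range N, aa j ^ 2

def TT (i N : ℕ) (x y : Fin i → Bool) : ℝ :=
  ∑ j : Fin i, if (j : ℕ) < N then aa j * sg (x j) * sg (y j) else 0

/-- VB: the harmonic sum. -/
def S_VB : Prop := (∀ N : ℕ, 1 ≤ N → 1 ≤ VV N) ∧ Tendsto VV atTop atTop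

/-- MU: uniform second moment. -/
def S_MU : Prop :=
  ∀ i N : ℕ, N ≤ i →
    (∑ x : Fin i → Bool, ∑ y : Fin i → Bool, TT i N x y ^ 2) / (4 : ℝ) ^ i = VV N

/-- MK: moments weighted by the kernel. -/
def S_MK : Prop :=
  ∀ i N : ℕ, N ≤ i →
    (∑ x : Fin i → Bool, ∑ y : Fin i → Bool, KK i x y) / (4 : ℝ) ^ i ≤ 2 ∧
    VV N ≤ (∑ x : Fin i → Bool, ∑ y : Fin i → Bool, KK i x y * TT i N x y) / (4 : ℝ) ^ i ∧
    (∑ x : Fin i → Bool, ∑ y : Fin i → Bool, KK i x y * TT i N x y ^ 2) / (4 : ℝ) ^ i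
      ≤ 2 * (VV N + (VV N + 1) ^ 2)

/-- PN: the test polynomials. -/
def S_PN : Prop :=
  ∀ N : ℕ, 4 ≤ N → ∃ q : MvPolynomial (Fin 2) ℝ, ∀ i : ℕ, N ≤ i →
    EU (fun s t => MvPolynomial.eval ![s, t] (q ^ 2)) i ≤ 2 / VV N + 2 / (N : ℝ) ^ 2 ∧
    EK (fun s t => MvPolynomial.eval ![s, t] (q ^ 2)) i ≤ 24 ∧
    1 / 2 ≤ EK (fun s t => MvPolynomial.eval ![s, t] q) i

/-- K6: uniform integrability. -/
def S_K6 : Prop :=
  ∀ (κ : ℝ × ℝ → ℝ) (T : ℕ → ℝ × ℝ → ℝ) (C : ℝ), (∀ z, 0 ≤ κ z) → Integrable κ (mu.prod mu) →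
    (∀ N, Integrable (fun z => T N z) (mu.prod mu)) →
    (∀ N, Integrable (fun z => T N z ^ 2) (mu.prod mu)) →
    (∀ N, Integrable (fun z => κ z * T N z) (mu.prod mu)) →
    (∀ N, Integrable (fun z => κ z * T N z ^ 2) (mu.prod mu)) →
    (∀ N, ∫ z, κ z * T N z ^ 2 ∂(mu.prod mu) ≤ C) →
    Tendsto (fun N => ∫ z, T N z ^ 2 ∂(mu.prod mu)) atTop (𝓝 0) →
    Tendsto (fun N => ∫ z, κ z * T N z ∂(mu.prod mu)) atTop (𝓝 0)

/-- NE: no kernel has the densities `cc`. -/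
def S_NE : Prop :=
  ∀ κ : ℝ → ℝ → ℝ, Measurable (Function.uncurry κ) → (∀ x y, 0 ≤ κ x y) → ¬ HasMom κ

/-- AE: almost dense sequences tending to zero exist. -/
def S_AE : Prop := ∃ p : ℕ → ℝ, AD p

/-- The final statement. -/
def S_FIN : Prop :=
  (∃ p : ℕ → ℝ, (∀ n, 0 < p n ∧ p n ≤ 1) ∧
    (∀ ε : ℝ, 0 < ε → ∀ᶠ n : ℕ in atTop, (n : ℝ) ^ (-ε) ≤ p n) ∧ Tendsto p atTop (𝓝 0)) ∧
  ∀ p : ℕ → ℝ, (∀ n, 0 < p n ∧ p n ≤ 1) →
    (∀ ε : ℝ, 0 < ε → ∀ᶠ n : ℕ in atTop, (n : ℝ) ^ (-ε) ≤ p n) → Tendsto p atTop (𝓝 0) →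
    ∃ (G : ∀ n : ℕ, SimpleGraph (Fin n)) (c : ∀ k : ℕ, SimpleGraph (Fin k) → ℝ),
      (∀ (k : ℕ) (F : SimpleGraph (Fin k)), 0 ≤ c k F ∧
        Tendsto (fun n : ℕ => (Nat.card {f : F →g G n // Function.Injective f} : ℝ) /
          (p n ^ F.edgeSet.ncard * (n.descFactorial k : ℝ))) atTop (𝓝 (c k F))) ∧
      ¬ ∃ κ : ℝ → ℝ → ℝ, Measurable (Function.uncurry κ) ∧ (∀ x y, κ x y = κ y x) ∧
        (∀ x y, 0 ≤ κ x y) ∧
        ∀ (k : ℕ) (F : SimpleGraph (Fin k)),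
          (∫⁻ x in Set.univ.pi (fun _ : Fin k => Set.Icc (0 : ℝ) 1),
            ∏ i : Fin k, ∏ j : Fin k,
              (if i < j ∧ F.Adj i j then ENNReal.ofReal (κ (x i) (x j)) else 1))
            = ENNReal.ofReal (c k F)

end

end Pool.Agent.W845.GL
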