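import Pool.Agent.W12.GL.K1
import Pool.Agent.W280.GL.St

/-! GL-K2: Tonelli for double stars. -/

set_option autoImplicit false

namespace Pool.Agent.W845.GL.K2

open MeasureTheory Finset Pool.Agent.W845.GL
open scoped ENNReal

theorem pi_prod2 (n : ℕ) (g : Fin n → ℝ → ℝ≥0∞) (hg : ∀ j, Measurable (g j)) :
    ∫⁻ z : Fin n → ℝ, ∏ j, g j (z j) ∂(Measure.pi fun _ : Fin n => mu)
      = ∏ j, ∫⁻ y, g j y ∂mu := by
  induction n with
  | zero => simp
  | succ n ih =>
    have hF : Measurable fun z : Fin (n + 1) → ℝ => ∏ j, g j (z j) :=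
      Finset.measurable_prod _ fun j _ => (hg j).comp (measurable_pi_apply j)
    rw [Pool.Agent.W12.GL.K1.pi_split _ hF]
    have h1 : ∀ a : ℝ, ∫⁻ z : Fin n → ℝ, ∏ j, g j ((Fin.cons a z : Fin (n + 1) → ℝ) j)
        ∂(Measure.pi fun _ : Fin n => mu) = g 0 a * ∏ j : Fin n, ∫⁻ y, g j.succ y ∂mu := by
      intro a
      rw [← ih (fun j => g j.succ) (fun j => hg j.succ), ← lintegral_const_mul]
      · refine lintegral_congr fun z => ?_
        rw [Fin.prod_univ_succ]
        rfl
      · exact Finset.measurable_prod _ fun j _ => (hg j.succ).comp (measurable_pi_apply j)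
    simp_rw [h1]
    rw [lintegral_mul_const _ (hg 0), Fin.prod_univ_succ]

theorem prod_two (l m : ℕ) (A B : ℝ≥0∞) :
    ∏ j : Fin (l + m), (if j.val < l then A else B) = A ^ l * B ^ m := by
  rw [Fin.prod_univ_add]
  congr 1
  · rw [Finset.prod_congr rfl (g := fun _ => A) (fun i _ => if_pos i.isLt)]
    rw [Finset.prod_const, Finset.card_univ, Fintype.card_fin]
  · rw [Finset.prod_congr rfl (g := fun _ => B) (fun i _ => if_neg (by show ¬ (l + i.val < l); omega))]
    rw [Finset.prod_const, Finset.card_univ, Fintype.card_fin]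

theorem prod_ds (W : ℝ → ℝ → ℝ≥0∞) (l m : ℕ) (a b : ℝ) (y : Fin (l + m) → ℝ) :
    ∏ e ∈ Eg (DStar l m), W ((Fin.cons a (Fin.cons b y : Fin (l + m + 1) → ℝ) : Fin (l + m + 2) → ℝ) e.1)
      ((Fin.cons a (Fin.cons b y : Fin (l + m + 1) → ℝ) : Fin (l + m + 2) → ℝ) e.2) =
      W a b * ∏ j : Fin (l + m), (if j.val < l then W a (y j) else W b (y j)) := by
  rw [Pool.Agent.W280.GL.Eg_DStar, Finset.prod_insert, Finset.prod_image]
  · congr 1
    apply Finset.prod_congr rfl
    intro j _
    by_cases hj : j.val < l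
    · rw [if_pos hj]
      show W ((Fin.cons a (Fin.cons b y : Fin (l + m + 1) → ℝ) : Fin (l + m + 2) → ℝ) (Pool.Agent.W280.GL.cen l m j)) (y j) = _
      unfold Pool.Agent.W280.GL.cen
      rw [if_pos hj]; rfl
    · rw [if_neg hj]
      show W ((Fin.cons a (Fin.cons b y : Fin (l + m + 1) → ℝ) : Fin (l + m + 2) → ℝ) (Pool.Agent.W280.GL.cen l m j)) (y j) = _
      unfold Pool.Agent.W280.GL.cen
      rw [if_neg hj]; rfl
  · intro i _ j _ h
    exact Fin.succ_injective _ (Fin.succ_injective _ (congrArg Prod.snd h))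
  · intro h
    obtain ⟨j, _, hj⟩ := Finset.mem_image.mp h
    have h2 : (j.succ.succ : Fin (l + m + 2)) = 1 := congrArg Prod.snd hj
    have h3 := congrArg Fin.val h2
    rw [Fin.val_one] at h3
    have h4 : (j.succ.succ : Fin (l + m + 2)).val = j.val + 1 + 1 := rfl
    omega

theorem k2 : S_K2 := by
  intro κ hκ l m
  rw [Pool.Agent.W12.GL.K1.restrict_eq]
  have hm : Measurable fun p : ℝ × ℝ => ENNReal.ofReal (κ p.1 p.2) :=
    ENNReal.measurable_ofReal.comp hκ
  have hF : Measurable fun x : Fin (l + m + 2) → ℝ =>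
      ∏ e ∈ Eg (DStar l m), ENNReal.ofReal (κ (x e.1) (x e.2)) := by
    refine Finset.measurable_prod _ fun e _ => ?_
    have h2 : Measurable fun x : Fin (l + m + 2) → ℝ => (x e.1, x e.2) := by fun_prop
    exact hm.comp h2
  rw [Pool.Agent.W12.GL.K1.pi_split (n := l + m + 1) _ hF]
  refine lintegral_congr fun a => ?_
  have hF2 : Measurable fun z : Fin (l + m + 1) → ℝ =>
      ∏ e ∈ Eg (DStar l m), ENNReal.ofReal (κ ((Fin.cons a z : Fin (l + m + 2) → ℝ) e.1)
        ((Fin.cons a z : Fin (l + m + 2) → ℝ) e.2)) := by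
    have h3 : Measurable fun z : Fin (l + m + 1) → ℝ => (Fin.cons a z : Fin (l + m + 2) → ℝ) := by
      refine measurable_pi_lambda _ fun i => ?_
      refine Fin.cases ?_ (fun j => ?_) i
      · exact measurable_const
      · exact measurable_pi_apply j
    exact hF.comp h3
  rw [Pool.Agent.W12.GL.K1.pi_split (n := l + m) _ hF2]
  refine lintegral_congr fun b => ?_
  have h1 : ∀ y : Fin (l + m) → ℝ, ∏ e ∈ Eg (DStar l m),
      ENNReal.ofReal (κ ((Fin.cons a (Fin.cons b y : Fin (l + m + 1) → ℝ) : Fin (l + m + 2) → ℝ) e.1)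
        ((Fin.cons a (Fin.cons b y : Fin (l + m + 1) → ℝ) : Fin (l + m + 2) → ℝ) e.2))
      = ENNReal.ofReal (κ a b) * ∏ j : Fin (l + m),
        (fun (j : Fin (l + m)) (t : ℝ) => if j.val < l then ENNReal.ofReal (κ a t) else ENNReal.ofReal (κ b t)) j (y j) :=
    fun y => prod_ds (fun s t => ENNReal.ofReal (κ s t)) l m a b y
  have hga : ∀ c : ℝ, Measurable fun t => ENNReal.ofReal (κ c t) := fun c =>
    hm.comp (measurable_const.prodMk measurable_id)
  have hgj : ∀ j : Fin (l + m), Measurable ((fun (j : Fin (l + m)) (t : ℝ) =>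
      if j.val < l then ENNReal.ofReal (κ a t) else ENNReal.ofReal (κ b t)) j) := by
    intro j
    by_cases hj : j.val < l
    · have : ((fun (j : Fin (l + m)) (t : ℝ) =>
        if j.val < l then ENNReal.ofReal (κ a t) else ENNReal.ofReal (κ b t)) j) = fun t => ENNReal.ofReal (κ a t) := by
        funext t
        exact if_pos hj
      rw [this]
      exact hga a
    · have : ((fun (j : Fin (l + m)) (t : ℝ) =>
        if j.val < l then ENNReal.ofReal (κ a t) else ENNReal.ofReal (κ b t)) j) = fun t => ENNReal.ofReal (κ b t) := by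
        funext t
        exact if_neg hj
      rw [this]
      exact hga b
  have hmp : Measurable fun y : Fin (l + m) → ℝ => ∏ j : Fin (l + m),
        (fun (j : Fin (l + m)) (t : ℝ) => if j.val < l then ENNReal.ofReal (κ a t) else ENNReal.ofReal (κ b t)) j (y j) :=
    Finset.measurable_prod _ fun j _ => (hgj j).comp (measurable_pi_apply j)
  rw [lintegral_congr h1, lintegral_const_mul _ hmp, pi_prod2 _ _ hgj, mul_assoc, ← prod_two]
  congr 1
  apply Finset.prod_congr rfl
  intro j _
  by_cases hj : j.val < l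
  · rw [if_pos hj]
    exact lintegral_congr fun t => if_pos hj
  · rw [if_neg hj]
    exact lintegral_congr fun t => if_neg hj

end Pool.Agent.W845.GL.K2
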