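import Pool.Agent.W845.GL.Stm
import Pool.Agent.W657.GL.T0
import Pool.Agent.W584.GL.T1
import Pool.Agent.W490.GL.T2
import Pool.Agent.W699.GL.T3
import Pool.Agent.W721.GL.R0
import Pool.Agent.W701.GL.R1
import Pool.Agent.W881.GL.R2
import Pool.Agent.W45.GL.R3
import Pool.Agent.W359.GL.R4
import Pool.Agent.W284.GL.R5
import Pool.Agent.W513.GL.DG
import Pool.Agent.W280.GL.St
import Pool.Agent.W32.GL.SD
import Pool.Agent.W12.GL.K1
import Pool.Agent.W845.GL.K2
import Pool.Agent.W987.GL.KI
import Pool.Agent.W214.GL.KP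
import Pool.Agent.W274.GL.Db
import Pool.Agent.W212.GL.Sep
import Pool.Agent.W359.GL.BP
import Pool.Agent.W975.GL.Vb
import Pool.Agent.W636.GL.Mut
import Pool.Agent.W540.GL.MK
import Pool.Agent.W61.GL.PN
import Pool.Agent.W451.GL.K6
import Pool.Agent.W493.GL.NE
import Pool.Agent.W377.GL.AE
import Pool.Agent.W75.GL.Fin

set_option autoImplicit false

/-!
# Almost dense graph sequences whose normalised counts converge without a kernel limit

NOT a hand-in: the negative answer is known (Sah, Sawhney, Tidor, Zhao 2021, A counterexample to the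
Bollobas-Riordan conjectures on sparse graph limits). Kept as a library file only.

Question of Bollobas and Riordan: if `p = p(n) = n ^ (-o(1))` and `G_n` are graphs on `n` vertices
such that for every finite graph `F` the normalised number of copies
`s_p(F, G_n) = emb(F, G_n) / (p ^ e(F) n_(k))` converges to a finite limit `c_F`, is there a kernel
`kappa : [0,1]^2 -> [0, oo)` with `s(F, kappa) = c_F` for every `F`?

The theorem answers this negatively, for every almost dense density `p` tending to `0`: there are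
graphs `G_n` on `n` vertices all of whose normalised counts converge to finite limits `c_F`, but no
symmetric measurable `kappa : R^2 -> [0, oo)` satisfies `s(F, kappa) = c_F` for all `F` (the integral is
over the cube `[0,1]^k`, so only the restriction of `kappa` to `[0,1]^2` matters, and every symmetric
measurable function on `[0,1]^2` extends by zero). The limits are those of the unbounded kernels
`prod_{j < i} (1 + b_j x_j) (1 + b_j y_j) (1 + a_j x_j y_j)` on `{-1,1}^i`, `a_j = (j+1)^(-1/2)`,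
`b_j = 16^(-j-1)`, as `i` tends to infinity.

`Fintype`/`Decidable` instances are the classical ones.
-/

open Filter MeasureTheory Finset
open scoped Classical Topology

namespace Pool.Agent.W845.GL.NoKernelLimit

theorem no_kernel_limit :
    (∃ p : ℕ → ℝ, (∀ n, 0 < p n ∧ p n ≤ 1) ∧
      (∀ ε : ℝ, 0 < ε → ∀ᶠ n : ℕ in atTop, (n : ℝ) ^ (-ε) ≤ p n) ∧ Tendsto p atTop (𝓝 0)) ∧
    ∀ p : ℕ → ℝ, (∀ n, 0 < p n ∧ p n ≤ 1) →
      (∀ ε : ℝ, 0 < ε → ∀ᶠ n : ℕ in atTop, (n : ℝ) ^ (-ε) ≤ p n) → Tendsto p atTop (𝓝 0) →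
      ∃ (G : ∀ n : ℕ, SimpleGraph (Fin n)) (c : ∀ k : ℕ, SimpleGraph (Fin k) → ℝ),
        (∀ (k : ℕ) (F : SimpleGraph (Fin k)), 0 ≤ c k F ∧
          Tendsto (fun n : ℕ => (Nat.card {f : F →g G n // Function.Injective f} : ℝ) /
            (p n ^ F.edgeSet.ncard * (n.descFactorial k : ℝ))) atTop (𝓝 (c k F))) ∧
        ¬ ∃ κ : ℝ → ℝ → ℝ, Measurable (Function.uncurry κ) ∧ (∀ x y, κ x y = κ y x) ∧
          (∀ x y, 0 ≤ κ x y) ∧
          ∀ (k : ℕ) (F : SimpleGraph (Fin k)),
            (∫⁻ x in Set.univ.pi (fun _ : Fin k => Set.Icc (0 : ℝ) 1),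
              ∏ i : Fin k, ∏ j : Fin k,
                (if i < j ∧ F.Adj i j then ENNReal.ofReal (κ (x i) (x j)) else 1))
              = ENNReal.ofReal (c k F) := by
  have t0 := Pool.Agent.W657.GL.t0
  have t1 := Pool.Agent.W584.GL.t1
  have t2 := Pool.Agent.W490.GL.T2.t2 t0
  have t3 := Pool.Agent.W699.GL.t3 t0 t1 t2
  have r0 := Pool.Agent.W721.GL.r0
  have r1 := Pool.Agent.W701.GL.r1 r0
  have r2 := Pool.Agent.W881.GL.R2.r2 r0
  have r3 := Pool.Agent.W45.GL.r3
  have r4 := Pool.Agent.W359.GL.R4.r4 r0 r1 r2 r3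
  have r5 := Pool.Agent.W284.GL.r5 r0 r4
  have dg := Pool.Agent.W513.GL.dgt t0 t3 r5
  have st := Pool.Agent.W280.GL.st
  have sd := Pool.Agent.W32.GL.sd
  have k1 := Pool.Agent.W12.GL.K1.k1
  have k2 := Pool.Agent.W845.GL.K2.k2
  have ki := Pool.Agent.W987.GL.ki t3 k1 k2
  have kp := Pool.Agent.W214.GL.kp t3 st sd
  have db := Pool.Agent.W274.GL.db t0
  have sep := Pool.Agent.W212.GL.sep t0 db
  have bp := Pool.Agent.W359.GL.BP.bp db sep
  have vb := Pool.Agent.W975.GL.vb
  have mu := Pool.Agent.W636.GL.t_mu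
  have mk := Pool.Agent.W540.GL.mk t0
  have pn := Pool.Agent.W61.GL.pn t0 bp vb mu mk
  have k6 := Pool.Agent.W451.GL.k6
  have ne := Pool.Agent.W493.GL.ne ki kp pn k6 vb
  have ae := Pool.Agent.W377.GL.AE.ae_thm
  exact Pool.Agent.W75.GL.Fin.fin_thm ae dg ne t3

end Pool.Agent.W845.GL.NoKernelLimit
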